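import Pool.Agent.helper65.GF.SpecG

/-!
# bz:YMA: the coefficients of `F` beyond `p`
-/

set_option autoImplicit false

namespace Pool.Agent.GD

open Finset Metric Filter Topology

theorem YMA_dl (F : ℕ → ℂ) (n : ℕ) : cv dl F n = F n := by
  unfold cv
  rw [Finset.sum_eq_single n]
  · simp [dl]
  · intro r hr hne
    have := Finset.mem_range.1 hr
    have h1 : n - r ≠ 0 := by omega
    simp [dl, h1]
  · intro h
    exact absurd (Finset.mem_range.2 (Nat.lt_succ_self n)) h

theorem YMA_inv (κ Q F : ℕ → ℂ) (h : ∀ n, cv κ Q n = dl n) (n : ℕ) : F n = cv κ (cv Q F) n := by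
  rw [← cv_assoc, show cv κ Q = dl from funext h, YMA_dl]

theorem YMA (h1 : YPA_stmt) (h2 : YF1_stmt) : YMA_stmt := by
  intro p Q κ v u D Φ hG hκ hu hD j c hjp hQ n hn
  obtain ⟨-, -, hF, hlast⟩ := h1 p v Φ hG hD.v0
  have hF1 := hF c
  have hl1 := hlast c
  generalize hh : (fun r => ∑ m ∈ range (p + 1), c m * one0 Φ m r) = h at hF1
  have hhr : ∀ r, ∑ m ∈ range (p + 1), c m * one0 Φ m r = h r := fun r => by rw [← hh]
  simp only [hhr] at hl1
  generalize cmbh p (psh v Φ) c = F at hF1 hQ ⊢
  have hFr : ∀ r, r ≤ p → F r = if j ≤ r then (2 * (j : ℂ) + 1) * κ (r - j) else 0 := by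
    intro r hr
    rw [YMA_inv κ Q F hκ r]
    have h1 : cv κ (cv Q F) r = ∑ i ∈ range (r + 1), κ (r - i) * (if i = j then (2 * (j : ℂ) + 1) else 0) := by
      show ∑ i ∈ range (r + 1), κ (r - i) * cv Q F i = _
      refine Finset.sum_congr rfl fun i hi => ?_
      rw [hQ i (by have := Finset.mem_range.1 hi; omega)]
    rw [h1]
    simp only [mul_ite, mul_zero]
    rw [Finset.sum_ite_eq']
    by_cases h2 : j ≤ r
    · rw [if_pos h2, if_pos (Finset.mem_range.2 (by omega)), mul_comm]
    · rw [if_neg h2, if_neg (fun h3 => h2 (by have := Finset.mem_range.1 h3; omega))]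
  have hhk : ∀ k, k ≤ p → h k = if k < j then 0 else (2 * (j : ℂ) + 1) * cv u κ (k - j) := by
    intro k hk
    rw [YMA_inv u v h hu k]
    have h1 : cv u (cv v h) k = ∑ i ∈ range (k + 1), u (k - i) *
        (if j ≤ i then (2 * (j : ℂ) + 1) * κ (i - j) else 0) := by
      show ∑ i ∈ range (k + 1), u (k - i) * cv v h i = _
      refine Finset.sum_congr rfl fun i hi => ?_
      rw [← hF1 i, hFr i (by have := Finset.mem_range.1 hi; omega)]
    rw [h1]
    by_cases h2 : k < j
    · rw [if_pos h2]
      apply Finset.sum_eq_zero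
      intro i hi
      rw [if_neg (by have := Finset.mem_range.1 hi; omega), mul_zero]
    · rw [if_neg h2]
      obtain ⟨s, rfl⟩ : ∃ s, k = j + s := ⟨k - j, by omega⟩
      rw [show j + s + 1 = j + (s + 1) by ring, Finset.sum_range_add]
      have h3 : ∑ i ∈ range j, u (j + s - i) * (if j ≤ i then (2 * (j : ℂ) + 1) * κ (i - j) else 0) = 0 := by
        apply Finset.sum_eq_zero
        intro i hi
        rw [if_neg (by have := Finset.mem_range.1 hi; omega), mul_zero]
      rw [h3, zero_add, show j + s - j = s by omega]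
      unfold cv
      rw [Finset.mul_sum]
      refine Finset.sum_congr rfl fun i hi => ?_
      have := Finset.mem_range.1 hi
      rw [if_pos (by omega), show j + s - (j + i) = s - i by omega, show j + i - j = i by omega]
      ring
  rw [hF1 n]
  exact h2 p n j v (cv u κ) h D hD hjp hn hhk hl1

end Pool.Agent.GD
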